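import Mathlib
import Pool.Agent.Y580.GP.Helly3

set_option autoImplicit false

/-!
# No Helly number for hyperplane transversals of separated families of unit balls

For every `d ≥ 3` and every `r` there is a finite `(d-2)`-separated family of closed unit balls in
`ℝ^d`, every `r` members of which have a hyperplane transversal, but which has no hyperplane
transversal.

The definitions `Translate`, `HasTransversal` and `IsSeparated` are those of the starting result
`NoHellyTransversal`. There the convex body depends on `r` (and is a special one); here it is the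
unit ball for all `r` and in all dimensions.

In `ℝ³` put `n` unit balls far away in the horizontal plane, at
`R (cos (mπ/n), sin (mπ/n), 0)`, `0 ≤ m < n`, and two unit balls with centres `(0, 0, ±(1 + δ))`.
The gap `δ` is chosen such that a plane through the origin which touches the two balls at the
origin above the direction of one of the far away balls also touches the two neighbours of this ball
and meets all the other ones. The step from `d` to `d + 1` is that of
`Pool.Agent.Results.MP_2c58a9_co.UnitBalls`: the balls are placed over the balls in `ℝ^d` at heights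
`M, M², M³, …`, the last ball being used twice, so that a transversal is almost vertical.
-/

namespace Pool.Agent.Results.MP_23085c_co.UnitBalls

open Module Pool.Agent.Y580.GP

/-- The translate `K + v`. -/
def Translate (d : ℕ) (K : Set (EuclideanSpace ℝ (Fin d))) (v : EuclideanSpace ℝ (Fin d)) :
    Set (EuclideanSpace ℝ (Fin d)) := {y | ∃ x ∈ K, y = x + v}

/-- Some `j`-dimensional affine subspace of `ℝᵈ` meets every translate `K + v`, `v ∈ Q`. -/
def HasTransversal (d j : ℕ) (K : Set (EuclideanSpace ℝ (Fin d)))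
    (Q : Finset (EuclideanSpace ℝ (Fin d))) : Prop :=
  ∃ F : AffineSubspace ℝ (EuclideanSpace ℝ (Fin d)),
    (F : Set (EuclideanSpace ℝ (Fin d))).Nonempty ∧ finrank ℝ F.direction = j ∧
      ∀ v ∈ Q, ((F : Set (EuclideanSpace ℝ (Fin d))) ∩ Translate d K v).Nonempty

/-- The family `K + v`, `v ∈ P`, is `k`-separated: no `k + 2` distinct members meet a common
`k`-dimensional affine subspace. -/
def IsSeparated (d k : ℕ) (K : Set (EuclideanSpace ℝ (Fin d)))
    (P : Finset (EuclideanSpace ℝ (Fin d))) : Prop :=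
  ∀ Q ⊆ P, Q.card = k + 2 → ¬ HasTransversal d k K Q

lemma mem_translate {d : ℕ} {v y : EuclideanSpace ℝ (Fin d)} :
    y ∈ Translate d (Metric.closedBall 0 1) v ↔ y ∈ Metric.closedBall v 1 := by
  constructor
  · rintro ⟨x, hx, rfl⟩
    rw [mem_closedBall_zero_iff] at hx
    rwa [Metric.mem_closedBall, dist_eq_norm, add_sub_cancel_right]
  · intro h
    rw [Metric.mem_closedBall, dist_eq_norm] at h
    exact ⟨y - v, by rwa [mem_closedBall_zero_iff], (sub_add_cancel _ _).symm⟩

lemma sep_conv {e k : ℕ} {a : Fin (k + 1) → EuclideanSpace ℝ (Fin (e + 3))}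
    (h : Pool.Agent.Results.MP_2c58a9_co.ManyPerms.Separated
      fun i => Metric.closedBall (a i) 1) (P : Finset (EuclideanSpace ℝ (Fin (e + 3))))
    (hP : ∀ v ∈ P, ∃ i, a i = v) :
    IsSeparated (e + 3) (e + 3 - 2) (Metric.closedBall 0 1) P := by
  classical
  intro Q hQ hcard hT
  obtain ⟨F, hF0, hF, hall⟩ := hT
  have hcard' : Q.card = e + 3 := by omega
  let en := Finset.equivFinOfCardEq hcard'
  have hidx : ∀ v ∈ Q, ∃ i, a i = v := fun v hv => hP v (hQ hv)
  choose g hg using hidx
  have hf : Function.Injective fun j : Fin (e + 3) => g (en.symm j).1 (en.symm j).2 := by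
    intro i j hij
    have h2 : a (g (en.symm i).1 (en.symm i).2) = (en.symm i).1 := hg _ _
    have h3 : a (g (en.symm j).1 (en.symm j).2) = (en.symm j).1 := hg _ _
    have hij' : g (en.symm i).1 (en.symm i).2 = g (en.symm j).1 (en.symm j).2 := hij
    exact en.symm.injective (Subtype.ext (by rw [← h2, ← h3, hij']))
  refine h _ hf F hF fun i => ?_
  obtain ⟨y, hyF, hyT⟩ := hall (en.symm i).1 (en.symm i).2
  refine ⟨y, ?_, hyF⟩
  rw [mem_translate] at hyT
  show y ∈ Metric.closedBall (a (g (en.symm i).1 (en.symm i).2)) 1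
  rw [hg]
  exact hyT

lemma tr_conv {e n : ℕ} {a : Fin n → EuclideanSpace ℝ (Fin (e + 3))} {S : Finset (Fin n)}
    (h : HasTr a S) (Q : Finset (EuclideanSpace ℝ (Fin (e + 3))))
    (hQ : ∀ v ∈ Q, ∃ i ∈ S, a i = v) :
    HasTransversal (e + 3) (e + 3 - 1) (Metric.closedBall 0 1) Q := by
  obtain ⟨u, c, hu, h⟩ := h
  have huu : inner ℝ u u = 1 := by rw [real_inner_self_eq_norm_sq, hu, one_pow]
  have hu0 : u ≠ 0 := by
    intro h0
    rw [h0, norm_zero] at hu
    exact zero_ne_one hu
  refine ⟨AffineSubspace.mk' (c • u) (Submodule.span ℝ {u})ᗮ,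
    ⟨c • u, AffineSubspace.self_mem_mk' _ _⟩, ?_, ?_⟩
  · rw [AffineSubspace.direction_mk']
    have h1 := Submodule.finrank_add_finrank_orthogonal (Submodule.span ℝ {u})
    rw [finrank_span_singleton hu0, finrank_euclideanSpace_fin] at h1
    have h2 : ∀ x : ℕ, 1 + x = e + 3 → x = e + 3 - 1 := fun x hx => by omega
    exact h2 _ h1
  · intro v hv
    obtain ⟨i, hi, rfl⟩ := hQ v hv
    refine ⟨(c - inner ℝ u (a i)) • u + a i, ?_, ⟨(c - inner ℝ u (a i)) • u, ?_, rfl⟩⟩
    · rw [SetLike.mem_coe, AffineSubspace.mem_mk', vsub_eq_sub,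
        Submodule.mem_orthogonal_singleton_iff_inner_right, inner_sub_right, inner_add_right,
        real_inner_smul_right, real_inner_smul_right, huu]
      ring
    · rw [mem_closedBall_zero_iff, norm_smul, hu, mul_one, Real.norm_eq_abs, abs_sub_comm]
      exact h i hi

lemma no_conv {e n : ℕ} {a : Fin n → EuclideanSpace ℝ (Fin (e + 3))} (h : NoTr a)
    (P : Finset (EuclideanSpace ℝ (Fin (e + 3)))) (hP : ∀ i, a i ∈ P) :
    ¬ HasTransversal (e + 3) (e + 3 - 1) (Metric.closedBall 0 1) P := by
  rintro ⟨F, ⟨p0, hp0⟩, hF, hall⟩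
  have h1 : Module.finrank ℝ (F.directionᗮ : Submodule ℝ (EuclideanSpace ℝ (Fin (e + 3)))) = 1 := by
    have h2 := Submodule.finrank_add_finrank_orthogonal F.direction
    rw [hF, finrank_euclideanSpace_fin] at h2
    omega
  have := Module.nontrivial_of_finrank_pos (R := ℝ)
    (M := (F.directionᗮ : Submodule ℝ (EuclideanSpace ℝ (Fin (e + 3))))) (by omega)
  obtain ⟨⟨w, hw⟩, hw0⟩ := exists_ne
    (0 : (F.directionᗮ : Submodule ℝ (EuclideanSpace ℝ (Fin (e + 3)))))
  have hw0' : w ≠ 0 := fun h => hw0 (Subtype.ext h)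
  have hwn : ‖w‖ ≠ 0 := norm_ne_zero_iff.2 hw0'
  have hu : ‖‖w‖⁻¹ • w‖ = 1 := by
    rw [norm_smul, norm_inv, norm_norm, inv_mul_cancel₀ hwn]
  have huo : ‖w‖⁻¹ • w ∈ F.directionᗮ := Submodule.smul_mem _ _ hw
  obtain ⟨i, hi⟩ := h (‖w‖⁻¹ • w) hu (inner ℝ (‖w‖⁻¹ • w) p0)
  obtain ⟨y, hyF, hyT⟩ := hall (a i) (hP i)
  rw [mem_translate, Metric.mem_closedBall, dist_eq_norm] at hyT
  have h3 : inner ℝ (‖w‖⁻¹ • w) (y - p0) = 0 :=
    Submodule.inner_left_of_mem_orthogonal (AffineSubspace.vsub_mem_direction hyF hp0) huo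
  have h4 : inner ℝ (‖w‖⁻¹ • w) (a i) - inner ℝ (‖w‖⁻¹ • w) p0 =
      -inner ℝ (‖w‖⁻¹ • w) (y - a i) := by
    rw [inner_sub_right] at h3 ⊢
    linarith
  rw [h4, abs_neg] at hi
  have h5 := abs_real_inner_le_norm (‖w‖⁻¹ • w) (y - a i)
  rw [hu, one_mul] at h5
  linarith

/-- In every dimension `d ≥ 3` there is no Helly number for hyperplane transversals of
`(d-2)`-separated families of unit balls: for every `r` some finite `(d-2)`-separated family of
translates of the closed unit ball has no hyperplane transversal, although every subfamily of at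
most `r` members has one. -/
theorem result : ∀ d : ℕ, 3 ≤ d → ∀ r : ℕ,
    ∃ P : Finset (EuclideanSpace ℝ (Fin d)),
      IsSeparated d (d - 2) (Metric.closedBall 0 1) P ∧
        (∀ Q ⊆ P, Q.card ≤ r → HasTransversal d (d - 1) (Metric.closedBall 0 1) Q) ∧
        ¬ HasTransversal d (d - 1) (Metric.closedBall 0 1) P := by
  classical
  intro d hd r
  obtain ⟨e, rfl⟩ : ∃ e, d = e + 3 := ⟨d - 3, by omega⟩
  obtain ⟨k, a, h1, h2, h3⟩ := helly_all e r
  have hidx : ∀ v ∈ Finset.univ.image a, ∃ i, a i = v := by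
    intro v hv
    obtain ⟨i, -, hi⟩ := Finset.mem_image.1 hv
    exact ⟨i, hi⟩
  refine ⟨Finset.univ.image a, sep_conv h1 _ hidx, ?_,
    no_conv h2 _ fun i => Finset.mem_image_of_mem _ (Finset.mem_univ i)⟩
  intro Q hQ hcard
  have hidx' : ∀ v : Q, ∃ i, a i = v.1 := fun v => hidx v.1 (hQ v.2)
  choose g hg using hidx'
  refine tr_conv (S := Finset.univ.image g) (h3 _ ?_) Q ?_
  · refine Finset.card_image_le.trans ?_
    rw [Finset.card_univ, Fintype.card_coe]
    exact hcard
  · intro v hv
    exact ⟨g ⟨v, hv⟩, Finset.mem_image_of_mem _ (Finset.mem_univ _), hg _⟩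

end Pool.Agent.Results.MP_23085c_co.UnitBalls
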